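import Pool.Agent.Q133.BHPlane

set_option autoImplicit false

namespace Pool.Agent.Results.MP_7589f8_co.LinearlyManyBiheavy

/-- `G` is planar: it has a straight-line drawing in the plane, with distinct points as vertices, in
which no vertex lies on an edge it is not an end of, and edges without common end are disjoint. -/
def IsPlanar {V : Type} (G : SimpleGraph V) : Prop :=
  ∃ p : V → ℝ × ℝ, Function.Injective p ∧
    (∀ u v w, G.Adj u v → w ≠ u → w ≠ v → p w ∉ segment ℝ (p u) (p v)) ∧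
    ∀ u v x y, G.Adj u v → G.Adj x y → u ≠ x → u ≠ y → v ≠ x → v ≠ y →
      Disjoint (segment ℝ (p u) (p v)) (segment ℝ (p x) (p y))

/-- `G` is maximal planar: planar, and no edge can be added with the graph staying planar. -/
def IsMaximalPlanar {V : Type} (G : SimpleGraph V) : Prop :=
  IsPlanar G ∧ ∀ u v, u ≠ v → ¬ G.Adj u v → ¬ IsPlanar (G ⊔ SimpleGraph.edge u v)

/-- `D` is an orientation of `G`: every edge gets exactly one of its two directions. -/
def IsOrientation {V : Type} (G : SimpleGraph V) (D : V → V → Prop) : Prop :=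
  (∀ u v, D u v → G.Adj u v) ∧
    ∀ u v, G.Adj u v → (D u v ∧ ¬ D v u) ∨ (D v u ∧ ¬ D u v)

/-- `f(D, k)`: the number of vertices with out-degree and in-degree at least `k`. -/
noncomputable def fD {V : Type} (D : V → V → Prop) (k : ℕ) : ℕ :=
  Set.ncard {v | k ≤ Set.ncard {w | D v w} ∧ k ≤ Set.ncard {w | D w v}}

/-- `f(G, k)`: the minimum of `f(D, k)` over all orientations `D` of `G`. -/
noncomputable def f {V : Type} (G : SimpleGraph V) (k : ℕ) : ℕ :=
  sInf {m | ∃ D, IsOrientation G D ∧ m = fD D k}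

open Pool.Agent.Q133.BH

/-- disjoint copies of the 58-vertex graph -/
def B (n : ℕ) : SimpleGraph (Fin n) where
  Adj i j := adjN i.1 j.1
  symm := ⟨fun i j h => ⟨h.1.symm, h.2.symm⟩⟩
  loopless := ⟨fun i h => by
    rcases h.2 with h | h <;> exact E0_irrefl _ h⟩

theorem B_planar (n : ℕ) : IsPlanar (B n) := by
  refine ⟨fun i => P i.1, fun i j h => Fin.ext (P_inj h), ?_, ?_⟩
  · intro u v w huv h1 h2
    exact not_on huv (fun h => h1 (Fin.ext h)) (fun h => h2 (Fin.ext h))
  · intro u v x y huv hxy h1 h2 h3 h4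
    exact cross huv hxy (fun h => h1 (Fin.ext h)) (fun h => h2 (Fin.ext h))
      (fun h => h3 (Fin.ext h)) (fun h => h4 (Fin.ext h))

theorem exists_maximal (n : ℕ) : ∃ G : SimpleGraph (Fin n), B n ≤ G ∧ IsMaximalPlanar G := by
  classical
  obtain ⟨G, hG1, hG2⟩ := (Set.toFinite {G : SimpleGraph (Fin n) | IsPlanar G}).exists_le_maximal
    (B_planar n)
  refine ⟨G, hG1, hG2.1, ?_⟩
  intro u v huv hnadj hp
  have := hG2.2 hp le_sup_left
  apply hnadj
  apply this
  rw [SimpleGraph.sup_adj]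
  right
  rw [SimpleGraph.edge_adj]
  exact ⟨Or.inl ⟨rfl, rfl⟩, huv⟩

theorem fD_lower {n : ℕ} {G : SimpleGraph (Fin n)} (hG : B n ≤ G) {D : Fin n → Fin n → Prop}
    (hD : IsOrientation G D) : n / 58 ≤ fD D 2 := by
  classical
  have key : ∀ k : Fin (n / 58), ∃ v : Fin n, v.1 / 58 = k.1 ∧
      2 ≤ Set.ncard {w | D v w} ∧ 2 ≤ Set.ncard {w | D w v} := by
    intro k
    have hk : 58 * k.1 + 57 < n := by
      have h1 := k.2
      have h2 := Nat.div_mul_le_self n 58
      have h3 : (k.1 + 1) * 58 ≤ n / 58 * 58 := Nat.mul_le_mul_right _ h1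
      omega
    let D' : ℕ → ℕ → Prop := fun i j => ∃ (hi : i < 58) (hj : j < 58),
      D ⟨58 * k.1 + i, by omega⟩ ⟨58 * k.1 + j, by omega⟩
    have hD' : ∀ e ∈ E0, D' e.1 e.2 ∨ D' e.2 e.1 := by
      intro e he
      obtain ⟨h1, h2⟩ := E0_lt he
      have hadj : G.Adj ⟨58 * k.1 + e.1, by omega⟩ ⟨58 * k.1 + e.2, by omega⟩ := by
        apply hG
        refine ⟨?_, Or.inl ?_⟩
        · simp only
          omega
        · simp only
          have e1 : (58 * k.1 + e.1) % 58 = e.1 := by omega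
          have e2 : (58 * k.1 + e.2) % 58 = e.2 := by omega
          rw [e1, e2]
          exact he
      rcases hD.2 _ _ hadj with h | h
      · exact Or.inl ⟨h1, h2, h.1⟩
      · exact Or.inr ⟨h2, h1, h.1⟩
    have hasym : ∀ i j, D' i j → ¬ D' j i := by
      rintro i j ⟨hi, hj, h⟩ ⟨hj', hi', h'⟩
      rcases hD.2 _ _ (hD.1 _ _ h) with h'' | h''
      · exact h''.2 h'
      · exact h''.2 h
    obtain ⟨v, ⟨w, w', hne, ⟨hv, hw, h1⟩, ⟨_, hw', h2⟩⟩, ⟨x, x', hne', ⟨hx, _, h3⟩, ⟨hx', _, h4⟩⟩⟩ :=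
      core D' hD' hasym
    refine ⟨⟨58 * k.1 + v, by omega⟩, ?_, ?_, ?_⟩
    · simp only
      omega
    · refine (Set.one_lt_ncard (Set.toFinite _)).2 ⟨_, h1, _, h2, ?_⟩
      intro h
      rw [Fin.mk.injEq] at h
      omega
    · refine (Set.one_lt_ncard (Set.toFinite _)).2 ⟨_, h3, _, h4, ?_⟩
      intro h
      rw [Fin.mk.injEq] at h
      omega
  choose g hg using key
  have hinj : Function.Injective g := by
    intro a b hab
    have h1 := (hg a).1
    have h2 := (hg b).1
    rw [hab] at h1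
    exact Fin.ext (h1.symm.trans h2)
  have h1 : (Set.univ : Set (Fin (n / 58))).ncard ≤ fD D 2 := by
    unfold fD
    refine Set.ncard_le_ncard_of_injOn g ?_ hinj.injOn (Set.toFinite _)
    intro a _
    exact (hg a).2
  rwa [Set.ncard_univ, Nat.card_eq_fintype_card, Fintype.card_fin] at h1

theorem f_lower {n : ℕ} {G : SimpleGraph (Fin n)} (hG : B n ≤ G) : n / 58 ≤ f G 2 := by
  unfold f
  refine le_csInf ?_ ?_
  · refine ⟨_, fun u v => G.Adj u v ∧ u < v, ⟨fun u v h => h.1, ?_⟩, rfl⟩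
    intro u v h
    rcases lt_or_gt_of_ne h.ne with h' | h'
    · exact Or.inl ⟨⟨h, h'⟩, fun h'' => lt_asymm h' h''.2⟩
    · exact Or.inr ⟨⟨h.symm, h'⟩, fun h'' => lt_asymm h' h''.2⟩
  · rintro m ⟨D, hD, rfl⟩
    exact fD_lower hG hD

/-- It is not true that `f(G, 2) = 0` for every maximal planar graph: there is a maximal planar
graph each of whose orientations has a vertex with in-degree and out-degree at least `2`; moreover
for every `n` some maximal planar graph on `n` vertices has `f(G, 2) ≥ ⌊n / 58⌋`. -/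
theorem result :
    (∃ (n : ℕ) (G : SimpleGraph (Fin n)), IsMaximalPlanar G ∧
      (∀ D, IsOrientation G D → ∃ v, 2 ≤ Set.ncard {w | D v w} ∧ 2 ≤ Set.ncard {w | D w v}) ∧
      f G 2 ≠ 0) ∧
    ∀ n : ℕ, ∃ G : SimpleGraph (Fin n), IsMaximalPlanar G ∧ n / 58 ≤ f G 2 := by
  constructor
  · obtain ⟨G, hG, hM⟩ := exists_maximal 58
    refine ⟨58, G, hM, ?_, ?_⟩
    · intro D hD
      have h := fD_lower hG hD
      have h' : 0 < fD D 2 := by
        have : 58 / 58 = 1 := by norm_num
        omega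
      unfold fD at h'
      rw [Set.ncard_pos (Set.toFinite _)] at h'
      obtain ⟨v, hv⟩ := h'
      exact ⟨v, hv⟩
    · have := f_lower hG
      have h2 : 58 / 58 = 1 := by norm_num
      omega
  · intro n
    obtain ⟨G, hG, hM⟩ := exists_maximal n
    exact ⟨G, hM, f_lower hG⟩

end Pool.Agent.Results.MP_7589f8_co.LinearlyManyBiheavy
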